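import Pool.Agent.Helper13.ZL.Stmts

set_option autoImplicit false

open scoped Classical Pointwise

namespace Pool.Agent.Helper13.ZL

open IsDedekindDomain NumberField

/-- the place below -/
noncomputable def spl_under (k F : Type) [Field k] [NumberField k] [Field F] [NumberField F]
    [Algebra k F] (P : Pl F) : Pl k where
  asIdeal := P.asIdeal.under (𝓞 k)
  isPrime := inferInstance
  ne_bot := by
    intro h
    apply P.ne_bot
    exact Ideal.eq_bot_of_comap_eq_bot h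

lemma spl_under_liesOver {k F : Type} [Field k] [NumberField k] [Field F] [NumberField F]
    [Algebra k F] (P : Pl F) (v : Pl k) :
    spl_under k F P = v ↔ P.asIdeal.LiesOver v.asIdeal := by
  rw [HeightOneSpectrum.ext_iff, Ideal.liesOver_iff]
  exact eq_comm

lemma spl_iff_mem {k F : Type} [Field k] [NumberField k] [Field F] [NumberField F]
    [Algebra k F] (P : Pl F) (v : Pl k) (h : P.asIdeal.LiesOver v.asIdeal) (x : 𝓞 k) :
    algebraMap (𝓞 k) (𝓞 F) x ∈ P.asIdeal ↔ x ∈ v.asIdeal := by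
  rw [h.over]
  rfl

lemma spl_q_ge_two {k : Type} [Field k] [NumberField k] (v : Pl k) : 2 ≤ q v := by
  unfold q
  have h0 : Ideal.absNorm v.asIdeal ≠ 0 := by
    rw [Ne, Ideal.absNorm_eq_zero_iff]
    exact v.ne_bot
  have h1 : Ideal.absNorm v.asIdeal ≠ 1 := by
    rw [Ne, Ideal.absNorm_eq_one_iff]
    exact v.isPrime.ne_top
  omega

lemma spl_q_pow {k F : Type} [Field k] [NumberField k] [Field F] [NumberField F]
    [Algebra k F] (P : Pl F) (v : Pl k) (h : P.asIdeal.LiesOver v.asIdeal) :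
    q P = q v ^ (P.asIdeal.inertiaDeg (𝓞 k)) := by
  have := P.isPrime
  have := h
  exact (Ideal.absNorm_pow_inertiaDeg v.asIdeal P.asIdeal).symm

lemma spl_f_pos {k F : Type} [Field k] [NumberField k] [Field F] [NumberField F]
    [Algebra k F] (P : Pl F) : 0 < P.asIdeal.inertiaDeg (𝓞 k) := by
  have := P.isPrime
  exact Ideal.inertiaDeg_pos P.asIdeal (𝓞 k)

/-- the count -/
lemma spl_ncard {k F : Type} [Field k] [NumberField k] [Field F] [NumberField F]
    [Algebra k F] [IsGalois k F] (v : Pl k) :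
    (Ideal.primesOver v.asIdeal (𝓞 F)).ncard *
      (Ideal.ramificationIdxIn v.asIdeal (𝓞 F) * Ideal.inertiaDegIn v.asIdeal (𝓞 F)) =
      Module.finrank k F := by
  have := v.isPrime
  rw [Ideal.ncard_primesOver_mul_ramificationIdxIn_mul_inertiaDegIn v.asIdeal (𝓞 F) (F ≃ₐ[k] F)]
  exact IsGalois.card_aut_eq_finrank k F

/-- the decomposition group preserves the valuation ring -/
lemma spl_stab {k F : Type} [Field k] [NumberField k] [Field F] [NumberField F]
    [Algebra k F] [IsGalois k F] (P : Pl F) (τ : F ≃ₐ[k] F) (hτ : τ • P.asIdeal = P.asIdeal)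
    (x : F) (hx : P.valuation F x ≤ 1) : P.valuation F (τ x) ≤ 1 := by
  obtain ⟨n, ⟨d, hd0⟩, hnd⟩ := HeightOneSpectrum.exists_primeCompl_mul_eq_of_integer P x hx
  have hd1 : d ∉ P.asIdeal := hd0
  have h1 : τ x * algebraMap (𝓞 F) F (τ • (d : 𝓞 F)) = algebraMap (𝓞 F) F (τ • n) := by
    have := congrArg τ hnd
    rw [map_mul] at this
    exact this
  have hd : τ • (d : 𝓞 F) ∉ P.asIdeal := by
    intro h
    rw [← hτ, Ideal.smul_mem_pointwise_smul_iff] at h
    exact hd1 h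
  have h2 : P.valuation F (algebraMap (𝓞 F) F (τ • (d : 𝓞 F))) = 1 :=
    (HeightOneSpectrum.valuation_eq_one_iff_notMem P).mpr hd
  have h3 := congrArg (P.valuation F) h1
  rw [map_mul, h2, mul_one] at h3
  rw [h3]
  exact HeightOneSpectrum.valuation_le_one P _

/-- trivial decomposition groups: complete splitting -/
lemma spl_split {k F : Type} [Field k] [NumberField k] [Field F] [NumberField F]
    [Algebra k F] [IsGalois k F] (v : Pl k) (P : Pl F) (hP : P.asIdeal.LiesOver v.asIdeal)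
    (h : ∀ τ : F ≃ₐ[k] F, (∀ x : F, P.valuation F x ≤ 1 → P.valuation F (τ x) ≤ 1) → τ = 1) :
    (Ideal.primesOver v.asIdeal (𝓞 F)).ncard = Module.finrank k F ∧
      Ideal.inertiaDegIn v.asIdeal (𝓞 F) = 1 := by
  have := v.isPrime
  have := P.isPrime
  have := hP
  have hstab : MulAction.stabilizer (F ≃ₐ[k] F) P.asIdeal = ⊥ := by
    rw [Subgroup.eq_bot_iff_forall]
    intro τ hτ
    exact h τ (spl_stab P τ hτ)
  have h1 : (Ideal.primesOver v.asIdeal (𝓞 F)).ncard = Nat.card (F ≃ₐ[k] F) := by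
    rw [← Algebra.IsInvariant.orbit_eq_primesOver (𝓞 k) (𝓞 F) (F ≃ₐ[k] F) v.asIdeal P.asIdeal,
      ← MulAction.index_stabilizer, hstab, Subgroup.index_bot]
  have h2 : Nat.card (F ≃ₐ[k] F) = Module.finrank k F := IsGalois.card_aut_eq_finrank k F
  have h3 := spl_ncard (k := k) (F := F) v
  have h4 : 0 < Module.finrank k F := Module.finrank_pos
  rw [h1, h2] at h3
  refine ⟨h1.trans h2, ?_⟩
  have h5 : Ideal.ramificationIdxIn v.asIdeal (𝓞 F) * Ideal.inertiaDegIn v.asIdeal (𝓞 F) = 1 := by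
    have : Module.finrank k F * (Ideal.ramificationIdxIn v.asIdeal (𝓞 F) *
        Ideal.inertiaDegIn v.asIdeal (𝓞 F)) = Module.finrank k F * 1 := by rw [h3, mul_one]
    exact Nat.eq_of_mul_eq_mul_left h4 this
  exact Nat.eq_one_of_mul_eq_one_left h5

/-- the fibre -/
noncomputable def spl_fib (k F : Type) [Field k] [NumberField k] [Field F] [NumberField F]
    [Algebra k F] (v : Pl k) :
    ((spl_under k F) ⁻¹' {v} : Set (Pl F)) ≃ (Ideal.primesOver v.asIdeal (𝓞 F)) where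
  toFun P := ⟨P.1.asIdeal, P.1.isPrime, (spl_under_liesOver P.1 v).mp P.2⟩
  invFun Q := ⟨⟨Q.1, Q.2.1, by
      have := Q.2.1
      have := Q.2.2
      exact Ideal.ne_bot_of_liesOver_of_ne_bot v.ne_bot Q.1⟩, by
      exact (spl_under_liesOver _ v).mpr Q.2.2⟩
  left_inv _ := rfl
  right_inv _ := rfl

lemma spl_fib_finite {k F : Type} [Field k] [NumberField k] [Field F] [NumberField F]
    [Algebra k F] (v : Pl k) : Finite ((spl_under k F) ⁻¹' {v} : Set (Pl F)) := by
  have := v.isPrime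
  have h : (Ideal.primesOver v.asIdeal (𝓞 F)).Finite :=
    Algebra.QuasiFinite.finite_primesOver v.asIdeal
  have := h.to_subtype
  exact Finite.of_equiv _ (spl_fib k F v).symm

lemma spl_fib_card {k F : Type} [Field k] [NumberField k] [Field F] [NumberField F]
    [Algebra k F] (v : Pl k) : Nat.card ((spl_under k F) ⁻¹' {v} : Set (Pl F)) =
      (Ideal.primesOver v.asIdeal (𝓞 F)).ncard := by
  rw [Nat.card_congr (spl_fib k F v)]
  rfl

/-- the sum over a fibre -/
noncomputable def spl_w (k F : Type) [Field k] [NumberField k] [Field F] [NumberField F]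
    [Algebra k F] (s : ℝ) (v : Pl k) : ℝ :=
  ∑' P : ((spl_under k F) ⁻¹' {v} : Set (Pl F)), (q (P : Pl F) : ℝ) ^ (-s)

lemma spl_w_nonneg {k F : Type} [Field k] [NumberField k] [Field F] [NumberField F]
    [Algebra k F] (s : ℝ) (v : Pl k) : 0 ≤ spl_w k F s v :=
  tsum_nonneg fun _ => Real.rpow_nonneg (Nat.cast_nonneg _) _

/-- an upper bound for the sum over a fibre -/
lemma spl_w_le {k F : Type} [Field k] [NumberField k] [Field F] [NumberField F]
    [Algebra k F] [IsGalois k F] (s : ℝ) (v : Pl k) (a : ℝ) (ha : 0 ≤ a)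
    (h : ∀ P : Pl F, P.asIdeal.LiesOver v.asIdeal → (q P : ℝ) ^ (-s) ≤ a) :
    spl_w k F s v ≤ (Module.finrank k F : ℝ) * a := by
  have := spl_fib_finite (k := k) (F := F) v
  have : Fintype ((spl_under k F) ⁻¹' {v} : Set (Pl F)) := Fintype.ofFinite _
  unfold spl_w
  rw [tsum_fintype]
  have h1 : ∑ P : ((spl_under k F) ⁻¹' {v} : Set (Pl F)), (q (P : Pl F) : ℝ) ^ (-s) ≤
      ∑ _P : ((spl_under k F) ⁻¹' {v} : Set (Pl F)), a :=
    Finset.sum_le_sum fun P _ => h P.1 ((spl_under_liesOver P.1 v).mp P.2)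
  refine h1.trans ?_
  rw [Finset.sum_const, Finset.card_univ, ← Nat.card_eq_fintype_card, spl_fib_card, nsmul_eq_mul]
  refine mul_le_mul_of_nonneg_right ?_ ha
  have h2 := spl_ncard (k := k) (F := F) v
  have h3 : 0 < Module.finrank k F := Module.finrank_pos
  have h4 : (Ideal.primesOver v.asIdeal (𝓞 F)).ncard ≤ Module.finrank k F := by
    refine Nat.le_of_dvd h3 ⟨_, h2.symm⟩
  exact_mod_cast h4

/-- the sum over a fibre of completely split primes -/
lemma spl_w_eq {k F : Type} [Field k] [NumberField k] [Field F] [NumberField F]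
    [Algebra k F] [IsGalois k F] (s : ℝ) (v : Pl k)
    (h : ∀ P : Pl F, P.asIdeal.LiesOver v.asIdeal →
      ∀ τ : F ≃ₐ[k] F, (∀ x : F, P.valuation F x ≤ 1 → P.valuation F (τ x) ≤ 1) → τ = 1) :
    spl_w k F s v = (Module.finrank k F : ℝ) * (q v : ℝ) ^ (-s) := by
  have := spl_fib_finite (k := k) (F := F) v
  have : Fintype ((spl_under k F) ⁻¹' {v} : Set (Pl F)) := Fintype.ofFinite _
  have h3 : 0 < Module.finrank k F := Module.finrank_pos
  have hne : Nonempty ((spl_under k F) ⁻¹' {v} : Set (Pl F)) := by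
    have h2 := spl_ncard (k := k) (F := F) v
    have h4 : Nat.card ((spl_under k F) ⁻¹' {v} : Set (Pl F)) ≠ 0 := by
      rw [spl_fib_card]
      intro h0
      rw [h0, zero_mul] at h2
      omega
    exact (Nat.card_pos_iff.mp (Nat.pos_of_ne_zero h4)).1
  obtain ⟨P₀⟩ := hne
  have hP₀ := (spl_under_liesOver P₀.1 v).mp P₀.2
  obtain ⟨hc, hf⟩ := spl_split v P₀.1 hP₀ (h P₀.1 hP₀)
  have hq : ∀ P : ((spl_under k F) ⁻¹' {v} : Set (Pl F)), q (P : Pl F) = q v := by
    intro P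
    have hP := (spl_under_liesOver P.1 v).mp P.2
    have := P.1.isPrime
    have := v.isPrime
    have h5 := spl_q_pow P.1 v hP
    rw [← Ideal.inertiaDegIn_eq_inertiaDeg v.asIdeal P.1.asIdeal (F ≃ₐ[k] F), hf, pow_one] at h5
    exact h5
  unfold spl_w
  rw [tsum_fintype]
  have h6 : ∑ P : ((spl_under k F) ⁻¹' {v} : Set (Pl F)), (q (P : Pl F) : ℝ) ^ (-s) =
      ∑ _P : ((spl_under k F) ⁻¹' {v} : Set (Pl F)), (q v : ℝ) ^ (-s) :=
    Finset.sum_congr rfl fun P _ => by rw [hq P]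
  rw [h6, Finset.sum_const, Finset.card_univ, ← Nat.card_eq_fintype_card, spl_fib_card,
    nsmul_eq_mul, hc]

lemma spl_point {k F : Type} [Field k] [NumberField k] [Field F] [NumberField F]
    [Algebra k F] [IsGalois k F] (V B : Set (Pl k))
    (h1 : ∀ v ∈ V, v ∉ B → ∀ P : Pl F, P.asIdeal.LiesOver v.asIdeal →
      ∀ τ : F ≃ₐ[k] F, (∀ x : F, P.valuation F x ≤ 1 → P.valuation F (τ x) ≤ 1) → τ = 1)
    (h2 : ∀ v : Pl k, v ∉ B → ∀ P : Pl F, P.asIdeal.LiesOver v.asIdeal → q P = q v → v ∈ V)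
    (s : ℝ) (hs : 1 < s) (v : Pl k) :
    |(Module.finrank k F : ℝ) * ((if v ∈ V then (1 : ℝ) else 0) * (q v : ℝ) ^ (-s)) -
      spl_w k F s v| ≤
      (Module.finrank k F : ℝ) * ((if v ∈ B then (1 : ℝ) else 0) + (q v : ℝ) ^ (-(2 : ℝ))) := by
  have hn : (0 : ℝ) < (Module.finrank k F : ℝ) := by exact_mod_cast Module.finrank_pos
  have hq2 := spl_q_ge_two v
  have hq : (1 : ℝ) ≤ (q v : ℝ) := by exact_mod_cast (by omega : 1 ≤ q v)
  have hq0 : (0 : ℝ) < (q v : ℝ) := by linarith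
  have hp2 : (0 : ℝ) ≤ (q v : ℝ) ^ (-(2 : ℝ)) := Real.rpow_nonneg hq0.le _
  have hps : (0 : ℝ) ≤ (q v : ℝ) ^ (-s) := Real.rpow_nonneg hq0.le _
  have hps1 : (q v : ℝ) ^ (-s) ≤ 1 := Real.rpow_le_one_of_one_le_of_nonpos hq (by linarith)
  have hw0 := spl_w_nonneg (k := k) (F := F) s v
  by_cases hB : v ∈ B
  · rw [if_pos hB]
    have hwle : spl_w k F s v ≤ (Module.finrank k F : ℝ) * 1 := by
      refine spl_w_le s v 1 zero_le_one fun P _ => ?_
      have := spl_q_ge_two P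
      exact Real.rpow_le_one_of_one_le_of_nonpos
        (by exact_mod_cast (by omega : 1 ≤ q P)) (by linarith)
    have hi0 : 0 ≤ (Module.finrank k F : ℝ) *
        ((if v ∈ V then (1 : ℝ) else 0) * (q v : ℝ) ^ (-s)) := by
      split_ifs <;> positivity
    have hi1 : (Module.finrank k F : ℝ) *
        ((if v ∈ V then (1 : ℝ) else 0) * (q v : ℝ) ^ (-s)) ≤ (Module.finrank k F : ℝ) * 1 := by
      refine mul_le_mul_of_nonneg_left ?_ hn.le
      split_ifs
      · linarith
      · linarith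
    have h3 : (Module.finrank k F : ℝ) * 1 ≤
        (Module.finrank k F : ℝ) * ((1 : ℝ) + (q v : ℝ) ^ (-(2 : ℝ))) :=
      mul_le_mul_of_nonneg_left (by linarith) hn.le
    rw [abs_le]
    constructor <;> linarith
  · rw [if_neg hB]
    by_cases hV : v ∈ V
    · rw [if_pos hV, one_mul, spl_w_eq s v (h1 v hV hB), sub_self, abs_zero]
      positivity
    · rw [if_neg hV, zero_mul, mul_zero, zero_sub, abs_neg, abs_of_nonneg hw0, zero_add]
      refine spl_w_le s v _ hp2 fun P hP => ?_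
      have hf := spl_f_pos (k := k) P
      have hpow := spl_q_pow P v hP
      have hne : q P ≠ q v := fun h => hV (h2 v hB P hP h)
      have hf2 : 2 ≤ P.asIdeal.inertiaDeg (𝓞 k) := by
        by_contra hcon
        have : P.asIdeal.inertiaDeg (𝓞 k) = 1 := by omega
        rw [this, pow_one] at hpow
        exact hne hpow
      have hge : (q v) ^ 2 ≤ q P := by
        rw [hpow]
        exact Nat.pow_le_pow_right (by omega) hf2
      have hgeR : (q v : ℝ) ^ 2 ≤ (q P : ℝ) := by exact_mod_cast hge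
      calc (q P : ℝ) ^ (-s) ≤ ((q v : ℝ) ^ 2) ^ (-s) :=
            Real.rpow_le_rpow_of_nonpos (by positivity) hgeR (by linarith)
        _ = (q v : ℝ) ^ (2 * (-s)) := by
            rw [Real.rpow_mul hq0.le]
            norm_num
        _ ≤ (q v : ℝ) ^ (-(2 : ℝ)) := Real.rpow_le_rpow_of_exponent_le hq (by linarith)

theorem st_SPL (hPZ : ST_PZ) : ST_SPL := by
  intro k F _ _ _ _ _ _ V B hB h1 h2
  have h1' : ∀ v ∈ V, v ∉ B → ∀ P : Pl F, P.asIdeal.LiesOver v.asIdeal →
      ∀ τ : F ≃ₐ[k] F, (∀ x : F, P.valuation F x ≤ 1 → P.valuation F (τ x) ≤ 1) → τ = 1 :=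
    fun v hv hvB P hP => h1 v hv hvB P (spl_iff_mem P v hP)
  have h2' : ∀ v : Pl k, v ∉ B → ∀ P : Pl F, P.asIdeal.LiesOver v.asIdeal → q P = q v → v ∈ V :=
    fun v hvB P hP => h2 v hvB P (spl_iff_mem P v hP)
  obtain ⟨C₁, hC₁⟩ := hPZ k
  obtain ⟨C₂, hC₂⟩ := hPZ F
  have hn : (0 : ℝ) < (Module.finrank k F : ℝ) := by exact_mod_cast Module.finrank_pos
  have hsumB : Summable (fun v : Pl k => if v ∈ B then (1 : ℝ) else 0) := by
    refine summable_of_ne_finset_zero (s := hB.toFinset) fun v hv => ?_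
    rw [Set.Finite.mem_toFinset] at hv
    exact if_neg hv
  have hsum2 : Summable (fun v : Pl k => (q v : ℝ) ^ (-(2 : ℝ))) := by
    have := (hC₁ 2 (by norm_num) le_rfl).1
    simpa using this
  have hbd : Summable (fun v : Pl k => (Module.finrank k F : ℝ) *
      ((if v ∈ B then (1 : ℝ) else 0) + (q v : ℝ) ^ (-(2 : ℝ)))) :=
    (hsumB.add hsum2).mul_left _
  refine ⟨(1 / (Module.finrank k F : ℝ)) * ((∑' v : Pl k, (Module.finrank k F : ℝ) *
      ((if v ∈ B then (1 : ℝ) else 0) + (q v : ℝ) ^ (-(2 : ℝ)))) + C₂), fun s hs hs2 => ?_⟩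
  have hk : Summable (fun v : Pl k => (q v : ℝ) ^ (-s)) := by
    have := (hC₁ s hs hs2).1
    simpa using this
  have hF : Summable (fun P : Pl F => (q P : ℝ) ^ (-s)) := by
    have := (hC₂ s hs hs2).1
    simpa using this
  have hF2 : |(∑' P : Pl F, (q P : ℝ) ^ (-s)) - Real.log (1 / (s - 1))| ≤ C₂ := by
    have := (hC₂ s hs hs2).2
    simpa using this
  have hW : HasSum (fun v : Pl k => spl_w k F s v) (∑' P : Pl F, (q P : ℝ) ^ (-s)) :=
    hF.hasSum.tsum_fiberwise (spl_under k F)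
  have hVs : Summable (fun v : Pl k => (if v ∈ V then (1 : ℝ) else 0) * (q v : ℝ) ^ (-s)) := by
    refine Summable.of_nonneg_of_le (fun v => ?_) (fun v => ?_) hk
    · have : (0 : ℝ) ≤ (q v : ℝ) ^ (-s) := Real.rpow_nonneg (Nat.cast_nonneg _) _
      split_ifs <;> simp [this]
    · have : (0 : ℝ) ≤ (q v : ℝ) ^ (-s) := Real.rpow_nonneg (Nat.cast_nonneg _) _
      split_ifs <;> simp [this]
  refine ⟨hVs, ?_⟩
  have hdiff : Summable (fun v : Pl k => (Module.finrank k F : ℝ) *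
      ((if v ∈ V then (1 : ℝ) else 0) * (q v : ℝ) ^ (-s)) - spl_w k F s v) :=
    (hVs.mul_left _).sub hW.summable
  have habs : Summable (fun v : Pl k => |(Module.finrank k F : ℝ) *
      ((if v ∈ V then (1 : ℝ) else 0) * (q v : ℝ) ^ (-s)) - spl_w k F s v|) := hdiff.abs
  have h3 : (Module.finrank k F : ℝ) *
      (∑' v : Pl k, (if v ∈ V then (1 : ℝ) else 0) * (q v : ℝ) ^ (-s)) -
      (∑' P : Pl F, (q P : ℝ) ^ (-s)) =
      ∑' v : Pl k, ((Module.finrank k F : ℝ) *
        ((if v ∈ V then (1 : ℝ) else 0) * (q v : ℝ) ^ (-s)) - spl_w k F s v) := by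
    rw [(hVs.mul_left _).tsum_sub hW.summable, hW.tsum_eq, tsum_mul_left]
  have h4 : |(Module.finrank k F : ℝ) *
      (∑' v : Pl k, (if v ∈ V then (1 : ℝ) else 0) * (q v : ℝ) ^ (-s)) -
      (∑' P : Pl F, (q P : ℝ) ^ (-s))| ≤ ∑' v : Pl k, (Module.finrank k F : ℝ) *
      ((if v ∈ B then (1 : ℝ) else 0) + (q v : ℝ) ^ (-(2 : ℝ))) := by
    rw [h3]
    have h6 := norm_tsum_le_tsum_norm (f := fun v : Pl k => (Module.finrank k F : ℝ) *
      ((if v ∈ V then (1 : ℝ) else 0) * (q v : ℝ) ^ (-s)) - spl_w k F s v) habs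
    simp only [Real.norm_eq_abs] at h6
    refine h6.trans ?_
    exact habs.tsum_le_tsum (fun v => spl_point V B h1' h2' s hs v) hbd
  have h5 : (∑' v : Pl k, (if v ∈ V then (1 : ℝ) else 0) * (q v : ℝ) ^ (-s)) -
      1 / (Module.finrank k F : ℝ) * Real.log (1 / (s - 1)) =
      (1 / (Module.finrank k F : ℝ)) * (((Module.finrank k F : ℝ) *
      (∑' v : Pl k, (if v ∈ V then (1 : ℝ) else 0) * (q v : ℝ) ^ (-s)) -
      (∑' P : Pl F, (q P : ℝ) ^ (-s))) +
      ((∑' P : Pl F, (q P : ℝ) ^ (-s)) - Real.log (1 / (s - 1)))) := by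
    field_simp
    ring
  rw [h5, abs_mul, abs_of_pos (by positivity : (0 : ℝ) < 1 / (Module.finrank k F : ℝ))]
  refine mul_le_mul_of_nonneg_left ?_ (by positivity)
  exact (abs_add_le _ _).trans (add_le_add h4 hF2)

end Pool.Agent.Helper13.ZL
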